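import Pool.Agent.R497.TD.Defs

/-! Project TD, piece PROD: products of good weights. -/

set_option autoImplicit false

namespace Pool.Agent.R724.TD

open MeasureTheory Filter Finset
open Pool.Agent.R497.TD

universe u

theorem niceW_mul {X : Type u} [MeasurableSpace X] {d : ℕ} {B F : ℕ → ℝ → X → ℂ}
    (hB : NiceW d B) (hF : NiceW d F) : NiceW d (fun n a x => B n a x * F n a x) := by
  obtain ⟨hBm, C1, hB1, hB2⟩ := hB
  obtain ⟨hFm, C2, hF1, hF2⟩ := hF
  refine ⟨fun n => (hBm n).mul (hFm n), 2 * (|C1| * |C2|), ?_, ?_⟩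
  · intro n a x
    rw [norm_mul]
    have h1 : ‖B n a x‖ ≤ |C1| := (hB1 n a x).trans (le_abs_self _)
    have h2 : ‖F n a x‖ ≤ |C2| := (hF1 n a x).trans (le_abs_self _)
    have h3 : ‖B n a x‖ * ‖F n a x‖ ≤ |C1| * |C2| :=
      mul_le_mul h1 h2 (norm_nonneg _) (abs_nonneg _)
    have h4 : 0 ≤ |C1| * |C2| := by positivity
    linarith
  · intro n hn a a' x
    have h1 : ‖B n a' x‖ ≤ |C1| := (hB1 n a' x).trans (le_abs_self _)
    have h2 : ‖F n a x‖ ≤ |C2| := (hF1 n a x).trans (le_abs_self _)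
    have hp : 0 ≤ (n : ℝ) ^ (d - 1) * |a - a'| := by positivity
    have h3 : ‖B n a x - B n a' x‖ ≤ |C1| * ((n : ℝ) ^ (d - 1) * |a - a'|) := by
      refine (hB2 n hn a a' x).trans ?_
      rw [mul_assoc]
      exact mul_le_mul_of_nonneg_right (le_abs_self _) hp
    have h4 : ‖F n a x - F n a' x‖ ≤ |C2| * ((n : ℝ) ^ (d - 1) * |a - a'|) := by
      refine (hF2 n hn a a' x).trans ?_
      rw [mul_assoc]
      exact mul_le_mul_of_nonneg_right (le_abs_self _) hp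
    have h5 : B n a x * F n a x - B n a' x * F n a' x
        = (B n a x - B n a' x) * F n a x + B n a' x * (F n a x - F n a' x) := by ring
    change ‖B n a x * F n a x - B n a' x * F n a' x‖ ≤ _
    rw [h5]
    refine (norm_add_le _ _).trans ?_
    rw [norm_mul, norm_mul]
    have h6 : ‖B n a x - B n a' x‖ * ‖F n a x‖
        ≤ (|C1| * ((n : ℝ) ^ (d - 1) * |a - a'|)) * |C2| :=
      mul_le_mul h3 h2 (norm_nonneg _) (by positivity)
    have h7 : ‖B n a' x‖ * ‖F n a x - F n a' x‖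
        ≤ |C1| * (|C2| * ((n : ℝ) ^ (d - 1) * |a - a'|)) :=
      mul_le_mul h1 h4 (norm_nonneg _) (by positivity)
    calc ‖B n a x - B n a' x‖ * ‖F n a x‖ + ‖B n a' x‖ * ‖F n a x - F n a' x‖
        ≤ (|C1| * ((n : ℝ) ^ (d - 1) * |a - a'|)) * |C2|
          + |C1| * (|C2| * ((n : ℝ) ^ (d - 1) * |a - a'|)) := add_le_add h6 h7
      _ = 2 * (|C1| * |C2|) * (n : ℝ) ^ (d - 1) * |a - a'| := by ring

theorem t_PROD : S_PROD.{u} := by
  intro X _ μ _ d B F hB hF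
  obtain ⟨⟨CB, hCB⟩, Bk, hBk, hBa⟩ := hB
  obtain ⟨⟨CF, hCF⟩, Fk, hFk, hFa⟩ := hF
  have hCB' : ∀ᵐ a : ℝ, ∀ᵐ x ∂μ, ∀ n, ‖B n a x‖ ≤ CB := by
    have h1 := ae_all_iff.mpr hCB
    filter_upwards [h1] with a ha
    exact ae_all_iff.mpr ha
  have hCF' : ∀ᵐ a : ℝ, ∀ᵐ x ∂μ, ∀ n, ‖F n a x‖ ≤ CF := by
    have h1 := ae_all_iff.mpr hCF
    filter_upwards [h1] with a ha
    exact ae_all_iff.mpr ha
  refine ⟨⟨|CB| * |CF|, ?_⟩, fun j => fun n a x => Bk (Nat.unpair j).1 n a x * Fk (Nat.unpair j).2 n a x,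
    fun j => niceW_mul (hBk _) (hFk _), ?_⟩
  · intro n
    filter_upwards [hCB', hCF'] with a h1 h2
    filter_upwards [h1, h2] with x h3 h4
    rw [norm_mul]
    exact mul_le_mul ((h3 n).trans (le_abs_self _)) ((h4 n).trans (le_abs_self _))
      (norm_nonneg _) (abs_nonneg _)
  · filter_upwards [hCF', hBa, hFa] with a h1 h2 h3
    filter_upwards [h1, h2, h3] with x h4 h5 h6
    intro ε hε
    have hCFp : 0 < |CF| + 1 := by positivity
    obtain ⟨k, hk⟩ := h5 (ε / (2 * (|CF| + 1))) (by positivity)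
    obtain ⟨_, Ck, hCk, _⟩ := hBk k
    have hCkp : 0 < |Ck| + 1 := by positivity
    obtain ⟨l, hl⟩ := h6 (ε / (2 * (|Ck| + 1))) (by positivity)
    refine ⟨Nat.pair k l, ?_⟩
    filter_upwards [hk, hl] with N hN1 hN2
    rw [Nat.unpair_pair]
    have hNn : (0 : ℝ) ≤ 1 / (N : ℝ) := by positivity
    have hterm : ∀ n, ‖B n a x * F n a x - Bk k n a x * Fk l n a x‖
        ≤ (|CF| + 1) * ‖B n a x - Bk k n a x‖ + (|Ck| + 1) * ‖F n a x - Fk l n a x‖ := by
      intro n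
      have e : B n a x * F n a x - Bk k n a x * Fk l n a x
          = (B n a x - Bk k n a x) * F n a x + Bk k n a x * (F n a x - Fk l n a x) := by ring
      rw [e]
      refine (norm_add_le _ _).trans ?_
      rw [norm_mul, norm_mul]
      have g1 : ‖F n a x‖ ≤ |CF| + 1 := ((h4 n).trans (le_abs_self _)).trans (by linarith)
      have g2 : ‖Bk k n a x‖ ≤ |Ck| + 1 := ((hCk n a x).trans (le_abs_self _)).trans (by linarith)
      have g3 : ‖B n a x - Bk k n a x‖ * ‖F n a x‖ ≤ (|CF| + 1) * ‖B n a x - Bk k n a x‖ := by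
        rw [mul_comm]
        exact mul_le_mul_of_nonneg_right g1 (norm_nonneg _)
      have g4 : ‖Bk k n a x‖ * ‖F n a x - Fk l n a x‖ ≤ (|Ck| + 1) * ‖F n a x - Fk l n a x‖ :=
        mul_le_mul_of_nonneg_right g2 (norm_nonneg _)
      exact add_le_add g3 g4
    calc (1 / (N : ℝ)) * ∑ n ∈ Icc 1 N, ‖B n a x * F n a x - Bk k n a x * Fk l n a x‖
        ≤ (1 / (N : ℝ)) * ∑ n ∈ Icc 1 N, ((|CF| + 1) * ‖B n a x - Bk k n a x‖
          + (|Ck| + 1) * ‖F n a x - Fk l n a x‖) :=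
          mul_le_mul_of_nonneg_left (Finset.sum_le_sum fun n _ => hterm n) hNn
      _ = (|CF| + 1) * ((1 / (N : ℝ)) * ∑ n ∈ Icc 1 N, ‖B n a x - Bk k n a x‖)
          + (|Ck| + 1) * ((1 / (N : ℝ)) * ∑ n ∈ Icc 1 N, ‖F n a x - Fk l n a x‖) := by
          rw [Finset.sum_add_distrib, ← Finset.mul_sum, ← Finset.mul_sum]; ring
      _ ≤ (|CF| + 1) * (ε / (2 * (|CF| + 1))) + (|Ck| + 1) * (ε / (2 * (|Ck| + 1))) :=
          add_le_add (mul_le_mul_of_nonneg_left hN1 hCFp.le) (mul_le_mul_of_nonneg_left hN2 hCkp.le)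
      _ = ε := by field_simp; ring

end Pool.Agent.R724.TD
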