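import Pool.Agent.R497.TD.Defs

/-! Project TD, piece PTW: removal of the coefficients by the Cauchy-Schwarz inequality. -/

set_option autoImplicit false

namespace Pool.Agent.R724.TD

open MeasureTheory Filter Finset
open Pool.Agent.R497.TD

theorem sq_expand (N : ℕ) (f : ℕ → ℝ) :
    ((1 / (N : ℝ)) * ∑ n ∈ range N, f n) ^ 2
      = ∑ n ∈ range N, ∑ m ∈ range N, (1 / (N : ℝ)) ^ 2 * (f n * f m) := by
  rw [mul_pow, sq (∑ n ∈ range N, f n), Finset.sum_mul_sum, Finset.mul_sum]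
  refine sum_congr rfl fun n _ => ?_
  rw [Finset.mul_sum]

theorem t_PTW : S_PTW := by
  intro N b w ℓ θ hN hℓ hθ hb hw hw1
  have hNr : (0 : ℝ) < N := by exact_mod_cast hN
  have hint : ∀ n m, IntervalIntegrable (fun s => w n s * w m s) volume 0 ℓ := by
    intro n m
    apply IntervalIntegrable.mono_fun (intervalIntegrable_const (c := (1 : ℝ)))
    · exact ((hw n).mul (hw m)).aestronglyMeasurable
    · apply Eventually.of_forall
      intro s
      have h1 : |w n s * w m s| ≤ 1 := by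
        rw [abs_mul]
        exact mul_le_one₀ (hw1 n s) (abs_nonneg _) (hw1 m s)
      simpa using h1
  set c : ℕ → ℕ → ℝ := fun n m => ∫ s in (0 : ℝ)..ℓ, w n s * w m s with hc
  have dint : ∀ (κ : ℕ → ℕ → ℝ), ∫ s in (0 : ℝ)..ℓ,
      (∑ n ∈ range N, ∑ m ∈ range N, κ n m * (w n s * w m s))
      = ∑ n ∈ range N, ∑ m ∈ range N, κ n m * c n m := by
    intro κ
    rw [intervalIntegral.integral_finsetSum]
    · refine sum_congr rfl fun n _ => ?_
      rw [intervalIntegral.integral_finsetSum]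
      · refine sum_congr rfl fun m _ => ?_
        rw [intervalIntegral.integral_const_mul]
      · intro m _
        exact (hint n m).const_mul _
    · intro n _
      have h1 := IntervalIntegrable.sum (range N) (f := fun m s => κ n m * (w n s * w m s))
        (fun m _ => (hint n m).const_mul (κ n m))
      have h2 : (∑ m ∈ range N, (fun m s => κ n m * (w n s * w m s)) m)
          = fun s => ∑ m ∈ range N, κ n m * (w n s * w m s) := by
        funext s
        rw [Finset.sum_apply]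
      rw [h2] at h1
      exact h1
  have h1 : ∫ s in (0 : ℝ)..ℓ, ((1 / (N : ℝ)) * ∑ n ∈ range N, b n * w n s) ^ 2
      = ∑ n ∈ range N, ∑ m ∈ range N, ((1 / (N : ℝ)) ^ 2 * (b n * b m)) * c n m := by
    rw [← dint]
    congr 1
    funext s
    rw [sq_expand]
    refine sum_congr rfl fun n _ => sum_congr rfl fun m _ => ?_
    ring
  have h2 : ∀ s, ∫ s' in (0 : ℝ)..ℓ, ((1 / (N : ℝ)) * ∑ n ∈ range N, w n s * w n s') ^ 2
      = ∑ n ∈ range N, ∑ m ∈ range N, ((1 / (N : ℝ)) ^ 2 * c n m) * (w n s * w m s) := by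
    intro s
    have h3 := dint (fun n m => (1 / (N : ℝ)) ^ 2 * (w n s * w m s))
    have h4 : ∑ n ∈ range N, ∑ m ∈ range N, ((1 / (N : ℝ)) ^ 2 * c n m) * (w n s * w m s)
        = ∑ n ∈ range N, ∑ m ∈ range N, ((1 / (N : ℝ)) ^ 2 * (w n s * w m s)) * c n m := by
      refine sum_congr rfl fun n _ => sum_congr rfl fun m _ => ?_
      ring
    rw [h4, ← h3]
    congr 1
    funext s'
    rw [sq_expand]
    refine sum_congr rfl fun n _ => sum_congr rfl fun m _ => ?_
    ring
  have h3 : ∫ s in (0 : ℝ)..ℓ, ∫ s' in (0 : ℝ)..ℓ,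
      ((1 / (N : ℝ)) * ∑ n ∈ range N, w n s * w n s') ^ 2
      = ∑ n ∈ range N, ∑ m ∈ range N, (1 / (N : ℝ)) ^ 2 * (c n m) ^ 2 := by
    simp only [h2]
    rw [dint]
    refine sum_congr rfl fun n _ => sum_congr rfl fun m _ => ?_
    ring
  rw [h1, h3]
  -- the constant term
  have h4 : ∑ n ∈ range N, ∑ m ∈ range N, (1 / (N : ℝ)) ^ 2 * (θ / 2) = θ / 2 := by
    simp only [sum_const, card_range, nsmul_eq_mul]
    field_simp
  rw [← h4, Finset.mul_sum, Finset.mul_sum, Finset.mul_sum, ← Finset.sum_add_distrib]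
  apply Finset.sum_le_sum
  intro n _
  rw [Finset.mul_sum, Finset.mul_sum, Finset.mul_sum, ← Finset.sum_add_distrib]
  apply Finset.sum_le_sum
  intro m _
  have hbb : |b n * b m| ≤ 1 := by
    rw [abs_mul]
    exact mul_le_one₀ (hb n) (abs_nonneg _) (hb m)
  have hN2 : 0 ≤ (1 / (N : ℝ)) ^ 2 := by positivity
  set A := (1 / ℓ) * c n m with hA
  have h5 : 1 / ℓ * ((1 / (N : ℝ)) ^ 2 * (b n * b m) * c n m) = (1 / (N : ℝ)) ^ 2 * ((b n * b m) * A) := by
    rw [hA]; ring
  have h6 : 1 / (2 * θ) * (1 / ℓ ^ 2 * ((1 / (N : ℝ)) ^ 2 * c n m ^ 2))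
      = (1 / (N : ℝ)) ^ 2 * (1 / (2 * θ) * A ^ 2) := by
    rw [hA]; ring
  rw [h5, h6, ← mul_add]
  apply mul_le_mul_of_nonneg_left _ hN2
  have h7 : (b n * b m) * A ≤ |A| := by
    calc (b n * b m) * A ≤ |(b n * b m) * A| := le_abs_self _
      _ = |b n * b m| * |A| := abs_mul _ _
      _ ≤ 1 * |A| := mul_le_mul_of_nonneg_right hbb (abs_nonneg _)
      _ = |A| := one_mul _
  have h8 : |A| ≤ θ / 2 + 1 / (2 * θ) * A ^ 2 := by
    have h9 : 0 ≤ (|A| - θ) ^ 2 / (2 * θ) := by positivity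
    have h10 : (|A| - θ) ^ 2 / (2 * θ) = θ / 2 + 1 / (2 * θ) * A ^ 2 - |A| := by
      rw [sub_sq, sq_abs]
      field_simp
      ring
    linarith
  exact h7.trans h8

end Pool.Agent.R724.TD
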